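import Pool.Agent.H78.UN.Targets

/-! Rows XU and FRM of the board `un_modules`. -/

namespace Pool.Agent.H22.UN

open Finset Pool.Agent.H78.UN

/-- XU: the colours can be chosen such that every assignment violates a constraint. -/
theorem pf_XU : T_XU := by
  intro n M k L τ h hL
  by_contra hcon
  push Not at hcon
  have hsub : (Finset.univ : Finset (Fin M → Fin L)) ⊆
      (Finset.univ : Finset (Fin n → Bool)).biUnion
        (fun z => Fintype.piFinset (fun c => Finset.univ.erase (h (z ∘ τ c)))) := by
    intro b _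
    obtain ⟨z, hz⟩ := hcon b
    rw [Finset.mem_biUnion]
    refine ⟨z, Finset.mem_univ _, ?_⟩
    rw [Fintype.mem_piFinset]
    intro c
    exact Finset.mem_erase.2 ⟨fun e => hz c e.symm, Finset.mem_univ _⟩
  have h1 := Finset.card_le_card hsub
  have h2 : ((Finset.univ : Finset (Fin n → Bool)).biUnion
        (fun z => Fintype.piFinset (fun c => Finset.univ.erase (h (z ∘ τ c))))).card ≤
      2 ^ n * (L - 1) ^ M := by
    refine le_trans Finset.card_biUnion_le ?_
    have h3 : ∀ z ∈ (Finset.univ : Finset (Fin n → Bool)),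
        (Fintype.piFinset (fun c => Finset.univ.erase (h (z ∘ τ c)))).card ≤ (L - 1) ^ M := by
      intro z _
      rw [Fintype.card_piFinset]
      have h4 : ∀ c ∈ (Finset.univ : Finset (Fin M)),
          (Finset.univ.erase (h (z ∘ τ c))).card = L - 1 := by
        intro c _
        rw [Finset.card_erase_of_mem (Finset.mem_univ _), Finset.card_univ, Fintype.card_fin]
      rw [Finset.prod_congr rfl h4, Finset.prod_const, Finset.card_univ, Fintype.card_fin]
    refine le_trans (Finset.sum_le_card_nsmul _ _ _ h3) ?_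
    rw [Finset.card_univ, Fintype.card_fun, Fintype.card_bool, Fintype.card_fin, smul_eq_mul]
  have h5 : (Finset.univ : Finset (Fin M → Fin L)).card = L ^ M := by
    rw [Finset.card_univ, Fintype.card_fun, Fintype.card_fin, Fintype.card_fin]
  rw [h5] at h1
  omega

/-- The clause which is falsified exactly by the assignments with the pattern `x` on the scope
`τ`. -/
def cl {n k : ℕ} (τ : Fin k ↪ Fin n) (x : Fin k → Bool) : Clause (Fin n) :=
  Finset.univ.image (fun i => (τ i, !(x i)))

theorem falsified_cl {n k : ℕ} (τ : Fin k ↪ Fin n) (x : Fin k → Bool) (z : Fin n → Bool) :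
    Falsified (cl τ x) z ↔ z ∘ τ = x := by
  constructor
  · intro hz
    funext i
    have h1 := hz (τ i, !(x i)) (Finset.mem_image.2 ⟨i, Finset.mem_univ _, rfl⟩)
    simp only [Function.comp_apply]
    simp only at h1
    revert h1
    cases z (τ i) <;> cases x i <;> simp
  · intro hz l hl
    obtain ⟨i, _, hi⟩ := Finset.mem_image.1 hl
    rw [← hi, ← hz]
    simp only [Function.comp_apply]
    cases z (τ i) <;> simp

theorem card_cl {n k : ℕ} (τ : Fin k ↪ Fin n) (x : Fin k → Bool) : (cl τ x).card = k := by
  rw [cl, Finset.card_image_of_injective, Finset.card_univ, Fintype.card_fin]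
  intro i j hij
  exact τ.injective (Prod.mk.inj hij).1

/-- FRM: the formula. -/
theorem pf_FRM : T_FRM := by
  intro n M k L l τ h b hh hz
  classical
  refine ⟨{ sc := scp τ
            vio := fun c z => h (z ∘ τ c) = b c
            loc := ?_
            far := ?_ },
    (Finset.univ : Finset (Fin M)).biUnion (fun c =>
      ((Finset.univ : Finset (Fin k → Bool)).filter (fun x => h x = b c)).image (cl (τ c))),
    rfl, ?_, ?_, ?_, ?_⟩
  · intro c z z' hzz hv
    have h1 : z ∘ τ c = z' ∘ τ c := by
      funext i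
      exact hzz (τ c i) (Finset.mem_map.2 ⟨i, Finset.mem_univ _, rfl⟩)
    rw [← h1]
    exact hv
  · intro c z z' hv hv' hx
    obtain ⟨x, hx1, hx2⟩ := hx
    have hne : z ∘ τ c ≠ z' ∘ τ c := by
      intro he
      obtain ⟨i, _, hi⟩ := Finset.mem_map.1 hx1
      apply hx2
      rw [← hi]
      exact congrFun he i
    have h1 : 2 * l < hammingDist (z ∘ τ c) (z' ∘ τ c) := by
      by_contra hlt
      exact hh _ _ hne (by omega) (hv.trans hv'.symm)
    have h2 : hammingDist (z ∘ τ c) (z' ∘ τ c) ≤
        ((scp τ c).filter (fun x => z x ≠ z' x)).card := by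
      unfold hammingDist
      rw [← Finset.card_map (τ c)]
      apply Finset.card_le_card
      intro y hy
      obtain ⟨i, hi, hiy⟩ := Finset.mem_map.1 hy
      rw [Finset.mem_filter] at hi
      rw [Finset.mem_filter]
      refine ⟨Finset.mem_map.2 ⟨i, Finset.mem_univ _, hiy⟩, ?_⟩
      rw [← hiy]
      exact hi.2
    omega
  · refine le_trans Finset.card_biUnion_le ?_
    have h3 : ∀ c ∈ (Finset.univ : Finset (Fin M)),
        (((Finset.univ : Finset (Fin k → Bool)).filter (fun x => h x = b c)).image
          (cl (τ c))).card ≤ 2 ^ k := by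
      intro c _
      refine le_trans Finset.card_image_le (le_trans (Finset.card_filter_le _ _) ?_)
      rw [Finset.card_univ, Fintype.card_fun, Fintype.card_bool, Fintype.card_fin]
    refine le_trans (Finset.sum_le_card_nsmul _ _ _ h3) ?_
    rw [Finset.card_univ, Fintype.card_fin, smul_eq_mul]
  · intro C hC
    obtain ⟨c, _, hc⟩ := Finset.mem_biUnion.1 hC
    obtain ⟨x, _, hx⟩ := Finset.mem_image.1 hc
    rw [← hx]
    exact card_cl _ _
  · intro z
    obtain ⟨c, hc⟩ := hz z
    refine ⟨cl (τ c) (z ∘ τ c), ?_, (falsified_cl _ _ _).2 rfl⟩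
    rw [Finset.mem_biUnion]
    exact ⟨c, Finset.mem_univ _, Finset.mem_image.2 ⟨z ∘ τ c,
      Finset.mem_filter.2 ⟨Finset.mem_univ _, hc⟩, rfl⟩⟩
  · intro C hC
    obtain ⟨c, _, hc⟩ := Finset.mem_biUnion.1 hC
    obtain ⟨x, hx1, hx⟩ := Finset.mem_image.1 hc
    refine ⟨c, ?_⟩
    intro z hzC
    rw [← hx] at hzC
    have h4 := (falsified_cl _ _ _).1 hzC
    show h (z ∘ τ c) = b c
    rw [h4]
    exact (Finset.mem_filter.1 hx1).2

end Pool.Agent.H22.UN
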